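import Mathlib

namespace Pool.Agent.Results.MP_472d46_al.NotCancellative

/-- o-conjugacy: `a g = g b` and `b h = h a` for some `g, h` in `S¹`. -/
def OConj {S : Type} [Semigroup S] (a b : S) : Prop :=
  ∃ g h : WithOne S, (a : WithOne S) * g = g * b ∧ (b : WithOne S) * h = h * a

/-- Translations of `ℤ` by `n + 1` (written `tr n`) and constant maps, under composition. -/
inductive Ex : Type
  | tr (n : ℕ) : Ex
  | const (l : ℤ) : Ex

/-- Composition of maps. -/
def Ex.mul : Ex → Ex → Ex
  | .tr m, .tr n => .tr (m + n + 1)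
  | .tr m, .const l => .const (l + m + 1)
  | .const l, _ => .const l

instance : Semigroup Ex where
  mul := Ex.mul
  mul_assoc a b c := by
    change Ex.mul (Ex.mul a b) c = Ex.mul a (Ex.mul b c)
    cases a <;> cases b <;> cases c <;> simp [Ex.mul] <;> omega

lemma mul_def (a b : Ex) : a * b = Ex.mul a b := rfl

lemma left_tr (m : ℕ) (b : Ex) (g : WithOne Ex) (hg : (Ex.tr m : WithOne Ex) * g = g * b) :
    b = Ex.tr m := by
  induction g using WithOne.recOneCoe with
  | one => rw [mul_one, one_mul, WithOne.coe_inj] at hg; exact hg.symm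
  | coe g =>
    rw [← WithOne.coe_mul, ← WithOne.coe_mul, WithOne.coe_inj, mul_def, mul_def] at hg
    cases g <;> cases b <;> simp [Ex.mul] at hg ⊢ <;> omega

lemma oconj_iff (a b : Ex) : OConj a b ↔ a = b ∨ ∃ l l', a = .const l ∧ b = .const l' := by
  constructor
  · rintro ⟨g, h, hg, hh⟩
    cases a with
    | tr m => exact Or.inl (left_tr m b g hg).symm
    | const l =>
      cases b with
      | tr m => exact Or.inl (left_tr m _ h hh)
      | const l' => exact Or.inr ⟨l, l', rfl, rfl⟩
  · rintro (rfl | ⟨l, l', rfl, rfl⟩)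
    · exact ⟨1, 1, by simp, by simp⟩
    · exact ⟨Ex.const l, Ex.const l', rfl, rfl⟩

theorem result : ∃ (S : Type) (_ : Semigroup S) (c : Con S),
    (∀ a b : S, c a b ↔ OConj a b) ∧ ¬ IsLeftCancelMul c.Quotient ∧
      ¬ IsRightCancelMul c.Quotient := by
  let c : Con Ex :=
    { r := fun a b => a = b ∨ ∃ l l', a = .const l ∧ b = .const l'
      iseqv :=
        { refl := fun a => Or.inl rfl
          symm := by
            rintro a b (rfl | ⟨l, l', rfl, rfl⟩)
            · exact Or.inl rfl
            · exact Or.inr ⟨l', l, rfl, rfl⟩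
          trans := by
            rintro a b d (rfl | ⟨l, l', rfl, rfl⟩) h
            · exact h
            · rcases h with rfl | ⟨k, k', -, rfl⟩
              · exact Or.inr ⟨l, l', rfl, rfl⟩
              · exact Or.inr ⟨l, k', rfl, rfl⟩ }
      mul' := by
        rintro a b d e (rfl | ⟨l, l', rfl, rfl⟩) (rfl | ⟨k, k', rfl, rfl⟩)
        · exact Or.inl rfl
        · cases a
          · exact Or.inr ⟨_, _, rfl, rfl⟩
          · exact Or.inl rfl
        · exact Or.inr ⟨l, l', rfl, rfl⟩
        · exact Or.inr ⟨l, l', rfl, rfl⟩ }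
  have hne : ((Ex.tr 0 : Ex) : c.Quotient) ≠ (Ex.const 0 : Ex) := by
    intro h
    rcases c.eq.1 h with h | ⟨l, l', h, -⟩ <;> cases h
  refine ⟨Ex, inferInstance, c, fun a b => (oconj_iff a b).symm, fun h => hne ?_, fun h => hne ?_⟩
  · refine mul_left_cancel (a := ((Ex.const 0 : Ex) : c.Quotient)) ?_
    rw [← Con.coe_mul, ← Con.coe_mul]; rfl
  · refine mul_right_cancel (b := ((Ex.const 0 : Ex) : c.Quotient)) ?_
    rw [← Con.coe_mul, ← Con.coe_mul]
    exact c.eq.2 (Or.inr ⟨_, _, rfl, rfl⟩)

end Pool.Agent.Results.MP_472d46_al.NotCancellative
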